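import Pool.Agent.Helper73.Dn.Goals

/-!
# MINE: choice of a time with little freedom, followed by more freedom
-/

set_option autoImplicit false

open Pool.Agent.Helper73.Dn

namespace Pool.Agent.Helper64.Dn

theorem wt_nonneg {ρ : ℝ} (h : 1 < ρ) (i : ℕ) : 0 ≤ ρ ^ (i + 1) - ρ ^ i := by
  have : ρ ^ i ≤ ρ ^ (i + 1) := pow_le_pow_right₀ h.le (Nat.le_succ i)
  linarith

theorem EE_le {ρ : ℝ} (h : 1 < ρ) (P : Bool → Set ℕ) (n : ℕ) : EE ρ P n ≤ ρ ^ n := by
  classical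
  unfold EE
  have : 0 ≤ ∑ b, ∑ i ∈ (Finset.range n).filter (fun i => i ∈ P b), (ρ ^ (i + 1) - ρ ^ i) :=
    Finset.sum_nonneg fun b _ => Finset.sum_nonneg fun i _ => wt_nonneg h i
  linarith

theorem EE_succ_le {ρ : ℝ} (h : 1 < ρ) (P : Bool → Set ℕ) (m : ℕ) (b : Bool) (hb : m ∈ P b) :
    EE ρ P (m + 1) ≤ EE ρ P m := by
  classical
  unfold EE
  have key : ∀ b', ∑ i ∈ (Finset.range (m + 1)).filter (fun i => i ∈ P b'),
      (ρ ^ (i + 1) - ρ ^ i) = ∑ i ∈ (Finset.range m).filter (fun i => i ∈ P b'),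
      (ρ ^ (i + 1) - ρ ^ i) + (if m ∈ P b' then (ρ ^ (m + 1) - ρ ^ m) else 0) := by
    intro b'
    rw [Finset.sum_filter, Finset.sum_filter, Finset.sum_range_succ]
  simp only [key]
  rw [Finset.sum_add_distrib]
  have h1 : ρ ^ (m + 1) - ρ ^ m ≤
      ∑ b', (if m ∈ P b' then (ρ ^ (m + 1) - ρ ^ m) else 0) := by
    have := Finset.single_le_sum (s := Finset.univ)
      (f := fun b' => if m ∈ P b' then (ρ ^ (m + 1) - ρ ^ m) else 0)
      (fun b' _ => by
        by_cases hc : m ∈ P b'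
        · simp only [hc, if_true]; exact wt_nonneg h m
        · simp [hc]) (Finset.mem_univ b)
    simpa [hb] using this
  linarith

theorem minE : MinE := by
  intro ρ P δ n1 hρ hδ hE
  obtain ⟨a, ha⟩ := pow_unbounded_of_one_lt (2 / δ) hρ
  refine ⟨a, fun c => ?_⟩
  have hac : (0 : ℝ) < a + c + 1 := by positivity
  refine ⟨δ / (4 * (a + c + 1)), n1 + a, by positivity, fun n hn => ?_⟩
  set d : ℝ := δ / (4 * (a + c + 1)) with hd
  have hdpos : 0 < d := by positivity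
  have hρ0 : 0 < ρ := by linarith
  have hρn : 0 < ρ ^ n := pow_pos hρ0 n
  obtain ⟨m, hm, hmin⟩ := Finset.exists_min_image (Finset.Icc (n - a) (n + c))
    (fun m : ℕ => EE ρ P m - d * ρ ^ n * m) ⟨n, by simp⟩
  rw [Finset.mem_Icc] at hm
  have hstep : ∀ m' : ℕ, m < m' → m' ≤ n + c → EE ρ P m + d * ρ ^ n ≤ EE ρ P m' := by
    intro m' h1 h2
    have h3 := hmin m' (Finset.mem_Icc.2 ⟨by omega, h2⟩)
    have h4 : (m : ℝ) + 1 ≤ m' := by exact_mod_cast h1
    have h5 : d * ρ ^ n * (m + 1) ≤ d * ρ ^ n * m' :=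
      mul_le_mul_of_nonneg_left h4 (by positivity)
    linarith
  have hlt : m < n := by
    have h1 := hmin (n - a) (Finset.mem_Icc.2 ⟨le_refl _, by omega⟩)
    have h2 : EE ρ P (n - a) ≤ ρ ^ (n - a) := EE_le hρ P _
    have h3 : δ * ρ ^ m ≤ EE ρ P m := hE m (by omega)
    have h4 : ρ ^ (n - a) ≤ δ / 2 * ρ ^ n := by
      have e : ρ ^ n = ρ ^ (n - a) * ρ ^ a := by rw [← pow_add]; congr 1; omega
      rw [e]
      have h5 : 1 ≤ δ / 2 * ρ ^ a := by
        have : 2 / δ * δ ≤ ρ ^ a * δ := mul_le_mul_of_nonneg_right ha.le hδ.le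
        rw [div_mul_cancel₀ _ hδ.ne'] at this
        linarith
      have h6 : 0 < ρ ^ (n - a) := pow_pos hρ0 _
      nlinarith
    have h5 : (m : ℝ) - ((n - a : ℕ) : ℝ) ≤ a + c := by
      have : (m : ℝ) ≤ ((n - a : ℕ) : ℝ) + a + c := by
        have : m ≤ (n - a) + a + c := by omega
        exact_mod_cast this
      linarith
    have h6 : d * ρ ^ n * ((m : ℝ) - ((n - a : ℕ) : ℝ)) ≤ d * ρ ^ n * (a + c) :=
      mul_le_mul_of_nonneg_left h5 (by positivity)
    have h7 : d * (a + c) ≤ δ / 4 := by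
      have e : δ / 4 = d * (a + c + 1) := by
        rw [hd]; field_simp
      rw [e]
      nlinarith
    have h8 : d * ρ ^ n * (a + c) ≤ δ / 4 * ρ ^ n := by
      have := mul_le_mul_of_nonneg_right h7 hρn.le
      linarith
    have h9 : δ * ρ ^ m < δ * ρ ^ n := by nlinarith
    have h10 : ρ ^ m < ρ ^ n := lt_of_mul_lt_mul_left h9 hδ.le
    exact (pow_lt_pow_iff_right₀ hρ).1 h10
  refine ⟨m, by omega, hlt, ?_, hstep⟩
  intro b hb
  have h1 := hstep (m + 1) (Nat.lt_succ_self m) (by omega)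
  have h2 := EE_succ_le hρ P m b hb
  have h3 : 0 < d * ρ ^ n := by positivity
  linarith

end Pool.Agent.Helper64.Dn
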